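import Mathlib

set_option autoImplicit false

open Equiv Equiv.Perm

namespace GF40

set_option linter.unusedSectionVars false

variable {Q : Type*} [Fintype Q] [DecidableEq Q]

/-- Letters: a state with a sign. -/
abbrev Lt (Q : Type*) := Bool × Q

/-- Permutations fixing `y.2` if the sign `e` is the sign of `y`. -/
def UU (y : Lt Q) (e : Bool) : Subgroup (Perm Q) where
  carrier := {s | e = y.1 → s y.2 = y.2}
  one_mem' := by intro _; rfl
  mul_mem' := by
    intro a b ha hb h
    simp only [Set.mem_ofPred_eq] at ha hb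
    rw [Perm.mul_apply, hb h, ha h]
  inv_mem' := by
    intro a ha h
    simp only [Set.mem_ofPred_eq] at ha
    rw [Perm.inv_eq_iff_eq]; exact (ha h).symm

/-- The even ones among them. -/
def TT (y : Lt Q) (e : Bool) : Subgroup (Perm Q) := UU y e ⊓ alternatingGroup Q

lemma mem_UU (y : Lt Q) (e : Bool) (s : Perm Q) : s ∈ UU y e ↔ (e = y.1 → s y.2 = y.2) := Iff.rfl

lemma mem_TT (y : Lt Q) (e : Bool) (s : Perm Q) :
    s ∈ TT y e ↔ ((e = y.1 → s y.2 = y.2) ∧ s ∈ alternatingGroup Q) := Iff.rfl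

lemma exists_two (h5 : 5 ≤ Fintype.card Q) (a b c : Q) :
    ∃ z w : Q, z ≠ w ∧ z ≠ a ∧ z ≠ b ∧ z ≠ c ∧ w ≠ a ∧ w ≠ b ∧ w ≠ c := by
  have h1 : 1 < (Finset.univ \ ({a, b, c} : Finset Q)).card := by
    have h2 := Finset.le_card_sdiff ({a, b, c} : Finset Q) Finset.univ
    have h3 : ({a, b, c} : Finset Q).card ≤ 3 := Finset.card_le_three
    rw [Finset.card_univ] at h2
    omega
  obtain ⟨z, hz, w, hw, hzw⟩ := Finset.one_lt_card.1 h1
  simp only [Finset.mem_sdiff, Finset.mem_univ, true_and, Finset.mem_insert,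
    Finset.mem_singleton, not_or] at hz hw
  exact ⟨z, w, hzw, hz.1, hz.2.1, hz.2.2, hw.1, hw.2.1, hw.2.2⟩

lemma swap2_mem_alt {a b c d : Q} (h1 : a ≠ b) (h2 : c ≠ d) :
    swap a b * swap c d ∈ alternatingGroup Q := by
  rw [Equiv.Perm.mem_alternatingGroup, Perm.sign_mul, Perm.sign_swap h1, Perm.sign_swap h2]
  decide

/-- Centralizer. -/
lemma central (h5 : 5 ≤ Fintype.card Q) (y : Lt Q) (e : Bool) (s : Perm Q) (hs : s ∈ UU y e)
    (hc : ∀ t ∈ TT y e, s * t = t * s) : s = 1 := by
  by_contra hne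
  obtain ⟨x, hx⟩ : ∃ x, s x ≠ x := by
    by_contra hh
    push Not at hh
    exact hne (Equiv.ext hh)
  obtain ⟨z, w, hzw, hza, hzb, hzc, hwa, hwb, hwc⟩ := exists_two h5 x (s x) y.2
  have ht : swap (s x) z * swap (s x) w ∈ TT y e := by
    refine ⟨fun he => ?_, swap2_mem_alt (Ne.symm hzb) (Ne.symm hwb)⟩
    have h1 : s y.2 = y.2 := hs he
    have h2 : x ≠ y.2 := by
      rintro rfl
      exact hx h1
    have h3 : s x ≠ y.2 := by
      intro h
      apply h2
      apply s.injective
      rw [h, h1]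
    rw [Perm.mul_apply, swap_apply_of_ne_of_ne (Ne.symm h3) (Ne.symm hwc),
      swap_apply_of_ne_of_ne (Ne.symm h3) (Ne.symm hzc)]
  have h1 := hc _ ht
  have h2 := congrArg (fun f : Perm Q => f x) h1
  simp only [Perm.mul_apply] at h2
  rw [swap_apply_of_ne_of_ne (Ne.symm hx) (Ne.symm hwa),
    swap_apply_of_ne_of_ne (Ne.symm hx) (Ne.symm hza), swap_apply_left,
    swap_apply_of_ne_of_ne hwb (Ne.symm hzw)] at h2
  exact hwb h2.symm

/-- A subgroup normalized by the alternating group is trivial or contains it. -/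
lemma normal_alt {P : Type*} [Fintype P] [DecidableEq P] (h5 : 5 ≤ Fintype.card P)
    (H : Subgroup (Perm P))
    (hn : ∀ t ∈ alternatingGroup P, ∀ h ∈ H, t * h * t⁻¹ ∈ H) :
    H = ⊥ ∨ alternatingGroup P ≤ H := by
  have hsim : IsSimpleGroup (alternatingGroup P) := by
    apply alternatingGroup.isSimpleGroup
    rwa [Nat.card_eq_fintype_card]
  have hN : (H.subgroupOf (alternatingGroup P)).Normal := by
    constructor
    intro h hh t
    rw [Subgroup.mem_subgroupOf] at hh ⊢
    exact hn t t.2 h hh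
  rcases hN.eq_bot_or_eq_top with hb | ht
  · left
    rw [Subgroup.eq_bot_iff_forall]
    intro h hh
    by_contra hne
    obtain ⟨x, hx⟩ : ∃ x, h x ≠ x := by
      by_contra hc
      push Not at hc
      exact hne (Equiv.ext hc)
    obtain ⟨z, w, hzw, hza, hzb, _, hwa, hwb, _⟩ := exists_two h5 x (h x) (h x)
    set t : Perm P := swap (h x) z * swap (h x) w with htdef
    have ht : t ∈ alternatingGroup P := swap2_mem_alt (Ne.symm hzb) (Ne.symm hwb)
    have h1 : t * h * t⁻¹ * h⁻¹ ∈ H := H.mul_mem (hn t ht h hh) (H.inv_mem hh)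
    have h2 : t * h * t⁻¹ * h⁻¹ ∈ alternatingGroup P := by
      have e1 : t * h * t⁻¹ * h⁻¹ = t * (h * t⁻¹ * h⁻¹) := by group
      rw [e1]
      exact (alternatingGroup P).mul_mem ht
        ((inferInstance : (alternatingGroup P).Normal).conj_mem _ ((alternatingGroup P).inv_mem ht) h)
    have h3 : (⟨t * h * t⁻¹ * h⁻¹, h2⟩ : alternatingGroup P) ∈ H.subgroupOf (alternatingGroup P) := by
      rw [Subgroup.mem_subgroupOf]
      exact h1
    rw [hb, Subgroup.mem_bot] at h3
    have h4 : t * h * t⁻¹ * h⁻¹ = 1 := congrArg Subtype.val h3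
    have h5' : t * h = h * t := by
      have := congrArg (fun f => f * h * t) h4
      simpa [mul_assoc] using this
    have h6 := congrArg (fun f : Perm P => f x) h5'
    simp only [Perm.mul_apply, htdef] at h6
    rw [swap_apply_of_ne_of_ne (Ne.symm hx) (Ne.symm hwa),
      swap_apply_of_ne_of_ne (Ne.symm hx) (Ne.symm hza), swap_apply_left,
      swap_apply_of_ne_of_ne hwb (Ne.symm hzw)] at h6
    exact hwb h6
  · right
    rwa [Subgroup.subgroupOf_eq_top] at ht

/-- The normality lemma for `TT`. -/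
lemma normal_TT (h6 : 6 ≤ Fintype.card Q) (y : Lt Q) (e : Bool) (H : Subgroup (Perm Q))
    (hU : H ≤ UU y e) (hn : ∀ t ∈ TT y e, ∀ h ∈ H, t * h * t⁻¹ ∈ H) :
    H = ⊥ ∨ TT y e ≤ H := by
  by_cases he : e = y.1
  · set q := y.2 with hq
    have hcard : 5 ≤ Fintype.card {x : Q // x ≠ q} := by
      rw [Fintype.card_subtype_compl, Fintype.card_subtype_eq]
      omega
    set φ : Perm {x : Q // x ≠ q} →* Perm Q := Perm.ofSubtype with hφ
    have hφT : ∀ t ∈ alternatingGroup {x : Q // x ≠ q}, φ t ∈ TT y e := by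
      intro t ht
      refine ⟨fun _ => ?_, ?_⟩
      · rw [hφ]
        exact Perm.ofSubtype_apply_of_not_mem t (by simp [hq])
      · show φ t ∈ alternatingGroup Q
        rw [Perm.mem_alternatingGroup] at ht ⊢
        rw [hφ, Perm.sign_ofSubtype, ht]
    have key := normal_alt hcard (H.comap φ) (by
      intro t ht h hh
      rw [Subgroup.mem_comap] at hh ⊢
      rw [map_mul, map_mul, map_inv]
      exact hn _ (hφT t ht) _ hh)
    have lift : ∀ s ∈ UU y e, ∃ s' : Perm {x : Q // x ≠ q}, φ s' = s := by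
      intro s hs
      have h1 : s q = q := hs he
      refine ⟨s.subtypePerm (fun x => ?_), ?_⟩
      · constructor
        · intro hx hx'
          apply hx
          rw [hx', h1]
        · intro hx hx'
          apply hx
          apply s.injective
          rw [hx', h1]
      · rw [hφ]
        apply Perm.ofSubtype_subtypePerm
        intro x hx hxq
        apply hx
        rw [hxq, h1]
    rcases key with hb | ht
    · left
      rw [Subgroup.eq_bot_iff_forall]
      intro h hh
      obtain ⟨h', hh'⟩ := lift h (hU hh)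
      have h1 : h' ∈ H.comap φ := by
        rw [Subgroup.mem_comap, hh']; exact hh
      rw [hb, Subgroup.mem_bot] at h1
      rw [← hh', h1, map_one]
    · right
      intro s hs
      obtain ⟨s', hs'⟩ := lift s hs.1
      have h1 : s' ∈ alternatingGroup {x : Q // x ≠ q} := by
        rw [Perm.mem_alternatingGroup]
        have h2 : s ∈ alternatingGroup Q := hs.2
        rw [Perm.mem_alternatingGroup, ← hs', hφ, Perm.sign_ofSubtype] at h2
        exact h2
      have := ht h1
      rw [Subgroup.mem_comap, hs'] at this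
      exact this
  · have hT : ∀ s, s ∈ TT y e ↔ s ∈ alternatingGroup Q := by
      intro s
      rw [mem_TT]
      exact ⟨fun h => h.2, fun h => ⟨fun h' => absurd h' he, h⟩⟩
    rcases normal_alt (by omega) H (fun t ht h hh => hn t ((hT t).2 ht) h hh) with hb | ht
    · left; exact hb
    · right
      intro s hs
      exact ht ((hT s).1 hs)

/-- Two noncommuting elements of `TT`. -/
lemma TT_noncomm (h6 : 6 ≤ Fintype.card Q) (y : Lt Q) (e : Bool) :
    ∃ a ∈ TT y e, ∃ b ∈ TT y e, a * b ≠ b * a := by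
  by_contra hcon
  push Not at hcon
  obtain ⟨z, w, hzw, hza, -, -, hwa, -, -⟩ := exists_two (by omega) y.2 y.2 y.2
  obtain ⟨u, v, huv, hua, hub, huc, hva, hvb, hvc⟩ := exists_two (by omega) y.2 z w
  have ht : swap z w * swap u v ∈ TT y e := by
    refine ⟨fun _ => ?_, swap2_mem_alt hzw huv⟩
    rw [Perm.mul_apply, swap_apply_of_ne_of_ne (Ne.symm hua) (Ne.symm hva),
      swap_apply_of_ne_of_ne (Ne.symm hza) (Ne.symm hwa)]
  have h1 := central (by omega) y e _ ht.1 (fun t ht' => hcon _ ht t ht')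
  have h2 := congrArg (fun f : Perm Q => f z) h1
  simp only [Perm.mul_apply, Perm.one_apply] at h2
  rw [swap_apply_of_ne_of_ne (Ne.symm hub) (Ne.symm hvb), swap_apply_left] at h2
  exact hzw h2.symm

lemma TT_trans (h6 : 6 ≤ Fintype.card Q) (y : Lt Q) (e : Bool) (x x' : Q)
    (hx : e = y.1 → x ≠ y.2) (hx' : e = y.1 → x' ≠ y.2) : ∃ t ∈ TT y e, t x = x' := by
  by_cases hxx : x = x'
  · exact ⟨1, (TT y e).one_mem, by simp [hxx]⟩
  · obtain ⟨u, v, huv, hua, hub, huc, hva, hvb, hvc⟩ := exists_two (by omega) y.2 x x'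
    refine ⟨swap x x' * swap u v, ⟨fun he => ?_, swap2_mem_alt hxx huv⟩, ?_⟩
    · rw [Perm.mul_apply, swap_apply_of_ne_of_ne (Ne.symm hua) (Ne.symm hva),
        swap_apply_of_ne_of_ne (Ne.symm (hx he)) (Ne.symm (hx' he))]
    · rw [Perm.mul_apply, swap_apply_of_ne_of_ne (Ne.symm hub) (Ne.symm hvb), swap_apply_left]

lemma alt_two_trans (h5 : 5 ≤ Fintype.card Q) (a b c d : Q) (hab : a ≠ b) (hcd : c ≠ d) :
    ∃ t ∈ alternatingGroup Q, t a = c ∧ t b = d := by
  set p : Perm Q := swap (swap a c b) d * swap a c with hp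
  have h1 : p a = c := by
    rw [hp, Perm.mul_apply, swap_apply_left]
    apply swap_apply_of_ne_of_ne
    · intro h
      have h2 : swap a c a = swap a c b := by rw [swap_apply_left]; exact h
      exact hab ((swap a c).injective h2)
    · exact hcd
  have h2 : p b = d := by
    rw [hp, Perm.mul_apply, swap_apply_left]
  by_cases hs : p ∈ alternatingGroup Q
  · exact ⟨p, hs, h1, h2⟩
  · obtain ⟨u, v, huv, hua, hub, _, hva, hvb, _⟩ := exists_two h5 c d d
    refine ⟨swap u v * p, ?_, ?_, ?_⟩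
    · rw [Perm.mem_alternatingGroup] at hs ⊢
      rw [Perm.sign_mul, Perm.sign_swap huv]
      rcases Int.units_eq_one_or (sign p) with h | h
      · exact absurd h hs
      · rw [h]; decide
    · rw [Perm.mul_apply, h1, swap_apply_of_ne_of_ne (Ne.symm hua) (Ne.symm hva)]
    · rw [Perm.mul_apply, h2, swap_apply_of_ne_of_ne (Ne.symm hub) (Ne.symm hvb)]

end GF40
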