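import Mathlib
import Pool.Agent.Lib_helper40.GF.Alt

set_option autoImplicit false
set_option linter.unusedSectionVars false

open Equiv Equiv.Perm

namespace GF40

/-- A group acting on letters with sections, with the duality of a square complex. -/
structure Sys (F Q : Type*) [Group F] where
  ρ : Bool → F →* Equiv.Perm Q
  sc : Bool → F → Q → F
  sc_mul : ∀ b v w q, sc b (v * w) q = sc b v (ρ b w q) * sc b w q
  d_act : ∀ b w q, ρ (!b) (sc b w q) q = ρ b w q
  d_sc : ∀ b w q, sc (!b) (sc b w q) q = w

variable {F Q : Type*} [Group F]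

/-- The inverse letter. -/
def linv (x : Lt Q) : Lt Q := (!x.1, x.2)

@[simp] lemma linv_linv (x : Lt Q) : linv (linv x) = x := by
  simp [linv]

@[simp] lemma linv_fst (x : Lt Q) : (linv x).1 = !x.1 := rfl
@[simp] lemma linv_snd (x : Lt Q) : (linv x).2 = x.2 := rfl

namespace Sys

variable (S : Sys F Q)

def la (w : F) (x : Lt Q) : Lt Q := (x.1, S.ρ x.1 w x.2)
def ls (w : F) (x : Lt Q) : F := S.sc x.1 w x.2

@[simp] lemma la_fst (w : F) (x : Lt Q) : (S.la w x).1 = x.1 := rfl
@[simp] lemma la_snd (w : F) (x : Lt Q) : (S.la w x).2 = S.ρ x.1 w x.2 := rfl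

lemma la_one (x : Lt Q) : S.la 1 x = x := by
  ext <;> simp

lemma la_mul (v w : F) (x : Lt Q) : S.la (v * w) x = S.la v (S.la w x) := by
  ext <;> simp

lemma ls_mul (v w : F) (x : Lt Q) : S.ls (v * w) x = S.ls v (S.la w x) * S.ls w x := by
  simp only [ls, la, S.sc_mul]

lemma ls_one (x : Lt Q) : S.ls 1 x = 1 := by
  have h := S.ls_mul 1 1 x
  rw [mul_one, S.la_one] at h
  exact left_eq_mul.1 h

lemma la_dual (w : F) (x : Lt Q) : S.la (S.ls w x) (linv x) = linv (S.la w x) := by
  ext
  · simp
  · simp only [la, ls, linv, S.d_act]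

lemma ls_dual (w : F) (x : Lt Q) : S.ls (S.ls w x) (linv x) = w := by
  simp only [ls, linv, S.d_sc]

/-- Action on words. -/
def wa : F → List (Lt Q) → List (Lt Q)
  | _, [] => []
  | w, x :: l => S.la w x :: wa (S.ls w x) l

/-- Section at a word. -/
def ws : F → List (Lt Q) → F
  | w, [] => w
  | w, x :: l => ws (S.ls w x) l

@[simp] lemma wa_nil (w : F) : S.wa w [] = [] := rfl
@[simp] lemma ws_nil (w : F) : S.ws w [] = w := rfl
@[simp] lemma wa_cons (w : F) (x : Lt Q) (l : List (Lt Q)) :
    S.wa w (x :: l) = S.la w x :: S.wa (S.ls w x) l := rfl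
@[simp] lemma ws_cons (w : F) (x : Lt Q) (l : List (Lt Q)) :
    S.ws w (x :: l) = S.ws (S.ls w x) l := rfl

lemma wa_append (w : F) (u v : List (Lt Q)) : S.wa w (u ++ v) = S.wa w u ++ S.wa (S.ws w u) v := by
  induction u generalizing w with
  | nil => simp
  | cons x l ih => simp [ih]

lemma ws_append (w : F) (u v : List (Lt Q)) : S.ws w (u ++ v) = S.ws (S.ws w u) v := by
  induction u generalizing w with
  | nil => simp
  | cons x l ih => simp [ih]

lemma wa_length (w : F) (u : List (Lt Q)) : (S.wa w u).length = u.length := by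
  induction u generalizing w with
  | nil => simp
  | cons x l ih => simp [ih]

lemma wa_one (u : List (Lt Q)) : S.wa 1 u = u := by
  induction u with
  | nil => simp
  | cons x l ih => simp [la_one, ls_one, ih]

lemma ws_one (u : List (Lt Q)) : S.ws 1 u = 1 := by
  induction u with
  | nil => simp
  | cons x l ih => simp [ls_one, ih]

lemma wa_mul (v w : F) (u : List (Lt Q)) : S.wa (v * w) u = S.wa v (S.wa w u) := by
  induction u generalizing v w with
  | nil => simp
  | cons x l ih => simp [la_mul, ls_mul, ih]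

lemma ws_mul (v w : F) (u : List (Lt Q)) :
    S.ws (v * w) u = S.ws v (S.wa w u) * S.ws w u := by
  induction u generalizing v w with
  | nil => simp
  | cons x l ih => simp [ls_mul, ih]

/-- The inverse word. -/
def winv (u : List (Lt Q)) : List (Lt Q) := (u.map linv).reverse

@[simp] lemma winv_nil : winv ([] : List (Lt Q)) = [] := rfl
@[simp] lemma winv_cons (x : Lt Q) (l : List (Lt Q)) : winv (x :: l) = winv l ++ [linv x] := by
  simp [winv]
@[simp] lemma winv_length (u : List (Lt Q)) : (winv u).length = u.length := by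
  simp [winv]
lemma winv_winv (u : List (Lt Q)) : winv (winv u) = u := by
  simp [winv, List.map_reverse, Function.comp_def]
lemma winv_append (u v : List (Lt Q)) : winv (u ++ v) = winv v ++ winv u := by
  simp [winv]

lemma w_dual (w : F) (u : List (Lt Q)) :
    S.wa (S.ws w u) (winv u) = winv (S.wa w u) ∧ S.ws (S.ws w u) (winv u) = w := by
  induction u generalizing w with
  | nil => simp
  | cons x l ih =>
    obtain ⟨h1, h2⟩ := ih (S.ls w x)
    constructor
    · simp only [ws_cons, winv_cons, wa_cons, wa_append, h1, h2]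
      simp [la_dual]
    · simp only [ws_cons, winv_cons, ws_append, h2]
      simp [ls_dual]

/-- Reduced words. -/
def Red (u : List (Lt Q)) : Prop := u.IsChain (fun x y => y ≠ linv x)

lemma red_nil : Red ([] : List (Lt Q)) := List.isChain_nil
lemma red_singleton (x : Lt Q) : Red [x] := List.isChain_singleton x

lemma red_winv {u : List (Lt Q)} (h : Red u) : Red (winv u) := by
  unfold Red winv at *
  rw [List.isChain_reverse, List.isChain_map]
  refine h.imp ?_
  intro a b hab hc
  apply hab
  simp only [linv_linv] at hc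
  rw [hc]

lemma linv_la (w : F) (x : Lt Q) : ∀ y : Lt Q, S.la (S.ls w x) y = linv (S.la w x) → y = linv x := by
  intro y hy
  rw [← S.la_dual] at hy
  have h1 : y.1 = (linv x).1 := by
    have := congrArg Prod.fst hy
    simpa using this
  have h2 := congrArg Prod.snd hy
  simp only [la_snd] at h2
  rw [h1] at h2
  have h3 := (S.ρ (linv x).1 (S.ls w x)).injective h2
  exact Prod.ext h1 h3

lemma red_wa (w : F) {u : List (Lt Q)} (h : Red u) : Red (S.wa w u) := by
  induction u generalizing w with
  | nil => simpa using red_nil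
  | cons x l ih =>
    cases l with
    | nil => simpa using red_singleton _
    | cons y l =>
      unfold Red at h
      rw [List.isChain_cons_cons] at h
      have h2 := ih (S.ls w x) h.2
      simp only [wa_cons] at h2 ⊢
      unfold Red at h2 ⊢
      rw [List.isChain_cons_cons]
      refine ⟨fun hc => h.1 (S.linv_la w x y hc), h2⟩

lemma wa_inj (w : F) : Function.Injective (S.wa w) := by
  intro u v h
  have := congrArg (S.wa w⁻¹) h
  rw [← S.wa_mul, ← S.wa_mul, inv_mul_cancel, S.wa_one, S.wa_one] at this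
  exact this

/-- Stabilizer of a word. -/
def St (u : List (Lt Q)) : Subgroup F where
  carrier := {w | S.wa w u = u}
  one_mem' := S.wa_one u
  mul_mem' := by
    intro a b ha hb
    simp only [Set.mem_ofPred_eq] at *
    rw [S.wa_mul, hb, ha]
  inv_mem' := by
    intro a ha
    simp only [Set.mem_ofPred_eq] at *
    have := congrArg (S.wa a⁻¹) ha
    rw [← S.wa_mul, inv_mul_cancel, S.wa_one] at this
    exact this.symm

lemma mem_St (u : List (Lt Q)) (w : F) : w ∈ S.St u ↔ S.wa w u = u := Iff.rfl

/-- The section homomorphism on the stabilizer. -/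
lemma ws_mul_St {u : List (Lt Q)} (v : F) {w : F} (hw : w ∈ S.St u) :
    S.ws (v * w) u = S.ws v u * S.ws w u := by
  rw [S.ws_mul, (S.mem_St u w).1 hw]

lemma ws_inv_St {u : List (Lt Q)} {w : F} (hw : w ∈ S.St u) :
    S.ws w⁻¹ u = (S.ws w u)⁻¹ := by
  have h := S.ws_mul_St w⁻¹ hw
  rw [inv_mul_cancel, S.ws_one] at h
  exact eq_inv_of_mul_eq_one_left h.symm

lemma ws_mem_St {u : List (Lt Q)} {w : F} (hw : w ∈ S.St u) : S.ws w u ∈ S.St (winv u) := by
  rw [S.mem_St, (S.w_dual w u).1, (S.mem_St u w).1 hw]

lemma ws_ws {u : List (Lt Q)} (w : F) : S.ws (S.ws w u) (winv u) = w := (S.w_dual w u).2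

/-- Every element of the stabilizer of the inverse word is a section. -/
lemma exists_ws {u : List (Lt Q)} {h : F} (hh : h ∈ S.St (winv u)) :
    ∃ w ∈ S.St u, S.ws w u = h := by
  refine ⟨S.ws h (winv u), ?_, ?_⟩
  · have := S.ws_mem_St hh
    rwa [winv_winv] at this
  · have := S.ws_ws (u := winv u) h
    rwa [winv_winv] at this

/-- Fixator of all reduced words of length at most `k` with first letter `y`. -/
def Mk (k : ℕ) (y : Lt Q) : Subgroup F :=
  ⨅ u : {u : List (Lt Q) // Red u ∧ u.head? = some y ∧ u.length ≤ k}, S.St u.1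

lemma mem_Mk {k : ℕ} {y : Lt Q} {w : F} :
    w ∈ S.Mk k y ↔ ∀ u, Red u → u.head? = some y → u.length ≤ k → S.wa w u = u := by
  unfold Mk
  rw [Subgroup.mem_iInf]
  constructor
  · intro h u h1 h2 h3
    exact h ⟨u, h1, h2, h3⟩
  · rintro h ⟨u, h1, h2, h3⟩
    exact h u h1 h2 h3

/-- Elements acting trivially on all letters. -/
def N : Subgroup F := (S.ρ true).ker ⊓ (S.ρ false).ker

lemma mem_N {w : F} : w ∈ S.N ↔ ∀ b, S.ρ b w = 1 := by
  unfold N
  rw [Subgroup.mem_inf, MonoidHom.mem_ker, MonoidHom.mem_ker]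
  constructor
  · rintro ⟨h1, h2⟩ b
    cases b
    · exact h2
    · exact h1
  · intro h
    exact ⟨h true, h false⟩

lemma N_normal : (S.N).Normal := by
  unfold N
  infer_instance

lemma la_of_N {w : F} (hw : w ∈ S.N) (x : Lt Q) : S.la w x = x := by
  have := S.mem_N.1 hw x.1
  ext
  · simp
  · simp [this]

end Sys

end GF40
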