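import Mathlib
import Pool.Agent.Lib_helper40.GF.Tree

set_option autoImplicit false
set_option linter.unusedSectionVars false

open Equiv Equiv.Perm

namespace GF40

section abstract

variable {Q : Type*} [Fintype Q] [DecidableEq Q] {G0 : Type*} [Group G0]

lemma surj_of_ne (h6 : 6 ≤ Fintype.card Q) (y : Lt Q) (e : Bool) (r : G0 →* Perm Q)
    (hU : ∀ w, r w ∈ UU y e) (hT : ∀ s ∈ TT y e, ∃ w, r w = s) (K : Subgroup G0)
    (hK : K.Normal) (hne : ∃ w ∈ K, r w ≠ 1) : ∀ s ∈ TT y e, ∃ w ∈ K, r w = s := by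
  have key := normal_TT h6 y e (K.map r) (by
    intro s hs
    obtain ⟨w, _, rfl⟩ := hs
    exact hU w) (by
    intro t ht h hh
    obtain ⟨w, hw, rfl⟩ := hh
    obtain ⟨v, rfl⟩ := hT t ht
    exact ⟨v * w * v⁻¹, hK.conj_mem w hw v, by simp⟩)
  rcases key with hb | ht
  · exfalso
    obtain ⟨w, hw, hw1⟩ := hne
    apply hw1
    have : r w ∈ K.map r := ⟨w, hw, rfl⟩
    rw [hb, Subgroup.mem_bot] at this
    exact this
  · intro s hs
    obtain ⟨w, hw, hws⟩ := ht hs
    exact ⟨w, hw, hws⟩

lemma lemG (h6 : 6 ≤ Fintype.card Q) {ι : Type*} [Finite ι] (y : Lt Q) (e : Bool)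
    (r : G0 →* Perm Q) (hU : ∀ w, r w ∈ UU y e) (hT : ∀ s ∈ TT y e, ∃ w, r w = s)
    (K : ι → Subgroup G0) (hK : ∀ i, (K i).Normal) (hne : ∀ i, ∃ w ∈ K i, r w ≠ 1) :
    ∀ s ∈ TT y e, ∃ w, (∀ i, w ∈ K i) ∧ r w = s := by
  classical
  have key : ∀ J : Finset ι, ∀ s ∈ TT y e, ∃ w, (∀ i ∈ J, w ∈ K i) ∧ r w = s := by
    intro J
    induction J using Finset.induction_on with
    | empty =>
      intro s hs
      obtain ⟨w, hw⟩ := hT s hs
      exact ⟨w, by simp, hw⟩
    | insert i J hi ih =>
      let A : Subgroup G0 := ⨅ j ∈ J, K j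
      have hA : ∀ w, w ∈ A ↔ ∀ j ∈ J, w ∈ K j := by
        intro w
        simp [A, Subgroup.mem_iInf]
      have hAn : A.Normal := by
        constructor
        intro w hw g
        rw [hA] at hw ⊢
        intro j hj
        exact (hK j).conj_mem w (hw j hj) g
      have hAB : (A ⊓ K i).Normal := by
        constructor
        intro w hw g
        rw [Subgroup.mem_inf] at hw ⊢
        exact ⟨hAn.conj_mem w hw.1 g, (hK i).conj_mem w hw.2 g⟩
      obtain ⟨a, ha, b, hb, hab⟩ := TT_noncomm h6 y e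
      obtain ⟨wa, hwa, rfl⟩ := ih a ha
      obtain ⟨wb, hwb, rfl⟩ := surj_of_ne h6 y e r hU hT (K i) (hK i) (hne i) b hb
      have hwaA : wa ∈ A := (hA wa).2 hwa
      have hc : wa * wb * wa⁻¹ * wb⁻¹ ∈ A ⊓ K i := by
        constructor
        · have e1 : wa * wb * wa⁻¹ * wb⁻¹ = wa * (wb * wa⁻¹ * wb⁻¹) := by group
          rw [e1]
          exact A.mul_mem hwaA (hAn.conj_mem _ (A.inv_mem hwaA) wb)
        · exact (K i).mul_mem ((hK i).conj_mem wb hwb wa) ((K i).inv_mem hwb)
      have hne' : r (wa * wb * wa⁻¹ * wb⁻¹) ≠ 1 := by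
        intro h
        apply hab
        rw [map_mul, map_mul, map_mul, map_inv, map_inv] at h
        have := congrArg (fun f => f * r wb * r wa) h
        simpa [mul_assoc] using this
      intro s hs
      obtain ⟨w, hw, hws⟩ := surj_of_ne h6 y e r hU hT (A ⊓ K i) hAB ⟨_, hc, hne'⟩ s hs
      refine ⟨w, ?_, hws⟩
      intro j hj
      rw [Finset.mem_insert] at hj
      rcases hj with rfl | hj
      · exact hw.2
      · exact (hA w).1 hw.1 j hj
  intro s hs
  cases nonempty_fintype ι
  obtain ⟨w, hw, hws⟩ := key Finset.univ s hs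
  exact ⟨w, fun i => hw i (Finset.mem_univ i), hws⟩

end abstract

variable {F Q : Type*} [Group F]

namespace Sys

variable (S : Sys F Q)

/-- The local action on a subgroup of the stabilizer of `u`. -/
def lam (M : Subgroup F) (u : List (Lt Q)) (hM : M ≤ S.St u) (e : Bool) : M →* Perm Q where
  toFun w := S.ρ e (S.ws w.1 u)
  map_one' := by
    show S.ρ e (S.ws 1 u) = 1
    rw [S.ws_one, map_one]
  map_mul' := by
    intro v w
    show S.ρ e (S.ws (v.1 * w.1) u) = S.ρ e (S.ws v.1 u) * S.ρ e (S.ws w.1 u)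
    rw [S.ws_mul_St v.1 (hM w.2), map_mul]

lemma lam_apply (M : Subgroup F) (u : List (Lt Q)) (hM : M ≤ S.St u) (e : Bool) (w : M) :
    S.lam M u hM e w = S.ρ e (S.ws w.1 u) := rfl

lemma head_winv_of_append (t : List (Lt Q)) (x : Lt Q) :
    (winv (t ++ [x])).head? = some (linv x) := by
  rw [winv_append]
  simp [winv]

lemma mem_St_singleton (y : Lt Q) (w : F) : w ∈ S.St [y] ↔ S.la w y = y := by
  rw [S.mem_St]
  simp

lemma St_cons_le (y : Lt Q) (l : List (Lt Q)) : S.St (y :: l) ≤ S.St [y] := by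
  intro w hw
  rw [S.mem_St] at hw
  rw [S.mem_St_singleton]
  simp only [wa_cons, List.cons.injEq] at hw
  exact hw.1

lemma St_head_le (y : Lt Q) (u : List (Lt Q)) (hu : u.head? = some y) : S.St u ≤ S.St [y] := by
  cases u with
  | nil => simp at hu
  | cons x l =>
    simp only [List.head?_cons, Option.some.injEq] at hu
    subst hu
    exact S.St_cons_le x l

lemma rho_mem_UU (y : Lt Q) (e : Bool) (w : F) (hw : S.la w y = y) : S.ρ e w ∈ UU y e := by
  intro he
  have := congrArg Prod.snd hw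
  simp only [la_snd] at this
  rw [he]
  exact this

lemma lam_U {u : List (Lt Q)} {z : Lt Q} (hz : (winv u).head? = some z) (e : Bool) {w : F}
    (hw : w ∈ S.St u) : S.ρ e (S.ws w u) ∈ UU z e := by
  apply S.rho_mem_UU
  have h1 := S.ws_mem_St hw
  exact (S.mem_St_singleton _ _).1 (S.St_head_le z _ hz h1)

/-- The inductive statement. -/
def Fk [Fintype Q] [DecidableEq Q] (k : ℕ) : Prop :=
  ∀ (y : Lt Q) (e : Bool), ∀ s ∈ TT y e, ∃ w ∈ S.Mk k y, S.ρ e w = s

lemma lam_T [Fintype Q] [DecidableEq Q] {k : ℕ} (hF : S.Fk k) {u : List (Lt Q)} (hu : Red u)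
    (hl : u.length ≤ k) {z : Lt Q} (hz : (winv u).head? = some z) (e : Bool) :
    ∀ s ∈ TT z e, ∃ w ∈ S.St u, S.ρ e (S.ws w u) = s := by
  intro s hs
  obtain ⟨h, hh, hhs⟩ := hF z e s hs
  have h1 : h ∈ S.St (winv u) := by
    rw [S.mem_St]
    exact S.mem_Mk.1 hh _ (red_winv hu) hz (by simpa using hl)
  obtain ⟨w, hw, hwh⟩ := S.exists_ws h1
  exact ⟨w, hw, by rw [hwh, hhs]⟩

lemma Mk_one (y : Lt Q) (w : F) : w ∈ S.Mk 1 y ↔ S.la w y = y := by
  rw [S.mem_Mk]
  constructor
  · intro h
    have := h [y] (red_singleton y) rfl (by simp)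
    simpa using this
  · intro h u _ hh hl
    cases u with
    | nil => simp at hh
    | cons x l =>
      simp only [List.head?_cons, Option.some.injEq] at hh
      subst hh
      have : l = [] := by
        simp only [List.length_cons] at hl
        exact List.length_eq_zero_iff.1 (by omega)
      subst this
      simp [h]

lemma Mk_le_St {k : ℕ} {y : Lt Q} {u : List (Lt Q)} (hu : Red u) (hh : u.head? = some y)
    (hl : u.length ≤ k) : S.Mk k y ≤ S.St u := by
  intro w hw
  rw [S.mem_St]
  exact S.mem_Mk.1 hw u hu hh hl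

lemma la_of_Mk {k : ℕ} (hk : 1 ≤ k) {y : Lt Q} {w : F} (hw : w ∈ S.Mk k y) : S.la w y = y := by
  have := S.mem_Mk.1 hw [y] (red_singleton y) rfl (by simpa using hk)
  simpa using this

lemma head_wa {y : Lt Q} {g : F} (hg : S.la g y = y) {u : List (Lt Q)}
    (hu : u.head? = some y) : (S.wa g u).head? = some y := by
  cases u with
  | nil => simp at hu
  | cons x l =>
    simp only [List.head?_cons, Option.some.injEq] at hu
    subst hu
    simp [hg]

/-- `Mk k y` is normalized by the stabilizer of `y`. -/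
lemma Mk_conj {k : ℕ} {y : Lt Q} {g w : F} (hg : S.la g y = y) (hw : w ∈ S.Mk k y) :
    g * w * g⁻¹ ∈ S.Mk k y := by
  rw [S.mem_Mk] at hw ⊢
  intro u hu hh hl
  have hg' : S.la g⁻¹ y = y := by
    have := (S.St [y]).inv_mem ((S.mem_St_singleton y g).2 hg)
    exact (S.mem_St_singleton y _).1 this
  have h1 := hw (S.wa g⁻¹ u) (S.red_wa _ hu) (S.head_wa hg' hh) (by rw [S.wa_length]; exact hl)
  rw [S.wa_mul, S.wa_mul, h1, ← S.wa_mul, mul_inv_cancel, S.wa_one]

lemma red_append_singleton {t : List (Lt Q)} {a x : Lt Q} (ha : t.getLast? = some a)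
    (ht : Red t) (hx : x ≠ linv a) : Red (t ++ [x]) := by
  unfold Red at *
  rw [List.isChain_append]
  refine ⟨ht, List.isChain_singleton x, ?_⟩
  intro b hb c hc
  rw [ha, Option.mem_some_iff] at hb
  simp only [List.head?_cons, Option.mem_def, Option.some.injEq] at hc
  subst hb
  subst hc
  exact hx

lemma red_append_left {t u : List (Lt Q)} (h : Red (t ++ u)) : Red t := by
  unfold Red at *
  exact (List.isChain_append.1 h).1

lemma mem_Mk_succ {k : ℕ} (hk : 1 ≤ k) {y : Lt Q} {w : F} :
    w ∈ S.Mk (k + 1) y ↔ w ∈ S.Mk k y ∧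
      ∀ u, Red u → u.head? = some y → u.length = k → S.ws w u ∈ S.N := by
  constructor
  · intro hw
    have hw' := S.mem_Mk.1 hw
    refine ⟨S.mem_Mk.2 (fun u h1 h2 h3 => hw' u h1 h2 (by omega)), ?_⟩
    intro u h1 h2 h3
    rw [S.mem_N]
    intro b
    ext q
    rw [Perm.one_apply]
    have hfix := hw' u h1 h2 (by omega)
    have hne : u ≠ [] := by rintro rfl; simp at h3; omega
    obtain ⟨a, ha⟩ : ∃ a, u.getLast? = some a := by
      rw [← Option.isSome_iff_exists]
      simp [hne]
    by_cases hx : ((b, q) : Lt Q) = linv a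
    · have h4 := S.ws_mem_St ((S.mem_St u w).2 hfix)
      have h5 : (winv u).head? = some (linv a) := by
        unfold winv
        rw [List.head?_reverse, List.getLast?_map, ha]
        rfl
      have h6 := (S.mem_St_singleton _ _).1 (S.St_head_le _ _ h5 h4)
      rw [← hx] at h6
      have := congrArg Prod.snd h6
      simpa using this
    · have h4 := red_append_singleton ha h1 hx
      have h5 := hw' (u ++ [(b, q)]) h4 (by
        rw [List.head?_append]
        simp [h2]) (by simp [h3])
      rw [S.wa_append, hfix] at h5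
      have h6 := List.append_cancel_left h5
      simp only [wa_cons, wa_nil, List.cons.injEq, and_true] at h6
      have := congrArg Prod.snd h6
      simpa using this
  · rintro ⟨h1, h2⟩
    rw [S.mem_Mk]
    intro v hv hh hl
    by_cases hl' : v.length ≤ k
    · exact S.mem_Mk.1 h1 v hv hh hl'
    · have hlen : v.length = k + 1 := by omega
      have hne : v ≠ [] := by rintro rfl; simp at hlen
      obtain ⟨u, x, rfl⟩ : ∃ u x, v = u ++ [x] := ⟨v.dropLast, v.getLast hne, (List.dropLast_append_getLast hne).symm⟩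
      have hu : Red u := red_append_left hv
      have hul : u.length = k := by simpa using hlen
      have huh : u.head? = some y := by
        cases u with
        | nil => simp at hul; omega
        | cons a l => simpa using hh
      rw [S.wa_append, S.mem_Mk.1 h1 u hu huh (by omega)]
      congr 1
      simp [S.la_of_N (h2 u hu huh hul) x]

end Sys

end GF40
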