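import Mathlib
import Pool.Agent.Lib_helper40.GF.Crit

set_option autoImplicit false
set_option linter.unusedSectionVars false

open Equiv Equiv.Perm

namespace GF40

namespace Sys

variable {F Q : Type*} [Group F] [Fintype Q] [DecidableEq Q] (S : Sys F Q)

/-- Second hypothesis of the criterion. -/
def H2 : Prop := ∀ b, ∀ s ∈ alternatingGroup Q, ∃ w, S.ρ (!b) w = 1 ∧ S.ρ b w = s

/-- Third hypothesis of the criterion. -/
def H3 : Prop := ∀ b e, ∃ h ∈ S.N, ∃ q1 q2, S.ρ e (S.sc b h q1) = 1 ∧ S.ρ e (S.sc b h q2) ≠ 1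

variable {S}

lemma F1 (h2 : S.H2) : S.Fk 1 := by
  intro y e s hs
  obtain ⟨w, hw1, hw2⟩ := h2 e s hs.2
  refine ⟨w, (S.Mk_one y w).2 ?_, hw2⟩
  by_cases he : e = y.1
  · have h3 : s y.2 = y.2 := hs.1 he
    ext
    · simp
    · simp only [la_snd]
      rw [← he, hw2, h3]
  · have h3 : y.1 = !e := by
      cases e <;> cases h : y.1 <;> simp_all
    ext
    · simp
    · simp only [la_snd]
      rw [h3, hw1, Perm.one_apply]

/-- moving an element of `N` by conjugation -/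
lemma ls_conj (f h : F) (hh : h ∈ S.N) (z : Lt Q) :
    S.ls (f * h * f⁻¹) (S.la f z) = S.ls f z * S.ls h z * (S.ls f z)⁻¹ := by
  have h1 : S.la f⁻¹ (S.la f z) = z := by rw [← S.la_mul, inv_mul_cancel, S.la_one]
  have h2 : S.ls f⁻¹ (S.la f z) = (S.ls f z)⁻¹ := by
    have := S.ls_mul f⁻¹ f z
    rw [inv_mul_cancel, S.ls_one] at this
    exact eq_inv_of_mul_eq_one_left this.symm
  rw [S.ls_mul, h1, S.ls_mul, S.la_of_N hh, h2]

lemma exists_ls_ne (h6 : 6 ≤ Fintype.card Q) (h2 : S.H2) (h3 : S.H3) (z : Lt Q) (e : Bool) :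
    ∃ h ∈ S.N, S.ρ e (S.ls h z) ≠ 1 := by
  obtain ⟨h, hN, q1, q2, -, hne⟩ := h3 z.1 e
  obtain ⟨s, hs, hsq⟩ := TT_trans h6 ((!z.1, q2) : Lt Q) z.1 q2 z.2 (by simp) (by simp)
  obtain ⟨f, -, hf⟩ := h2 z.1 s hs.2
  have h4 : S.la f (z.1, q2) = z := by
    ext
    · simp
    · simp [hf, hsq]
  refine ⟨f * h * f⁻¹, S.N_normal.conj_mem h hN f, ?_⟩
  have h5 := ls_conj f h hN ((z.1, q2) : Lt Q)
  rw [h4] at h5
  rw [h5, map_mul, map_mul, map_inv]
  intro hc
  apply hne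
  have := congrArg (fun t => (S.ρ e (S.ls f (z.1, q2)))⁻¹ * t * S.ρ e (S.ls f (z.1, q2))) hc
  simpa [mul_assoc, ls] using this

lemma F2 (h6 : 6 ≤ Fintype.card Q) (h2 : S.H2) (h3 : S.H3) : S.Fk 2 := by
  intro y e s hs
  set G0 := S.St [y] with hG0
  let r : G0 →* Perm Q := (S.ρ e).comp G0.subtype
  -- elements whose section at `y` is in `N`
  let K : Subgroup G0 := (S.lam G0 [y] le_rfl true).ker ⊓ (S.lam G0 [y] le_rfl false).ker
  have hK : K.Normal := inferInstance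
  have hKmem : ∀ w : G0, w ∈ K ↔ S.ws w.1 [y] ∈ S.N := by
    intro w
    rw [Subgroup.mem_inf, MonoidHom.mem_ker, MonoidHom.mem_ker, lam_apply, lam_apply, S.mem_N]
    constructor
    · rintro ⟨h1, h2⟩ b
      cases b
      · exact h2
      · exact h1
    · intro h
      exact ⟨h true, h false⟩
  have hU : ∀ w, r w ∈ UU y e := by
    intro w
    exact S.rho_mem_UU y e w.1 ((S.mem_St_singleton y _).1 w.2)
  have hT : ∀ s ∈ TT y e, ∃ w, r w = s := by
    intro s hs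
    obtain ⟨w, hw, hws⟩ := F1 h2 y e s hs
    exact ⟨⟨w, (S.mem_St_singleton y w).2 ((S.Mk_one y w).1 hw)⟩, hws⟩
  have hne : ∃ w ∈ K, r w ≠ 1 := by
    obtain ⟨h, hN, hh⟩ := exists_ls_ne h6 h2 h3 (linv y) e
    have h4 : S.la (S.ls h (linv y)) y = y := by
      have := S.la_dual h (linv y)
      rw [linv_linv, S.la_of_N hN, linv_linv] at this
      exact this
    have h5 : S.ls (S.ls h (linv y)) y = h := by
      have := S.ls_dual h (linv y)
      rwa [linv_linv] at this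
    refine ⟨⟨S.ls h (linv y), (S.mem_St_singleton y _).2 h4⟩, (hKmem _).2 ?_, hh⟩
    simp only [ws_cons, ws_nil]
    rw [h5]
    exact hN
  obtain ⟨w, hw, hws⟩ := surj_of_ne h6 y e r hU hT K hK hne s hs
  refine ⟨w.1, ?_, hws⟩
  rw [show (2 : ℕ) = 1 + 1 from rfl, S.mem_Mk_succ le_rfl]
  refine ⟨(S.Mk_one y _).2 ((S.mem_St_singleton y _).1 w.2), ?_⟩
  intro u hu hh hl
  have : u = [y] := by
    cases u with
    | nil => simp at hh
    | cons x l =>
      simp only [List.head?_cons, Option.some.injEq] at hh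
      simp only [List.length_cons] at hl
      have : l = [] := List.length_eq_zero_iff.1 (by omega)
      rw [hh, this]
  rw [this]
  exact (hKmem w).1 hw

lemma N_le_St (z : Lt Q) : S.N ≤ S.St [z] := by
  intro w hw
  rw [S.mem_St_singleton]
  exact S.la_of_N hw z

/-- The image of `N` under a local action. -/
lemma N_surj (h6 : 6 ≤ Fintype.card Q) (h2 : S.H2) (h3 : S.H3) (z : Lt Q) (e : Bool) :
    ∀ s ∈ TT (linv z) e, ∃ w ∈ S.N, S.ρ e (S.ls w z) = s := by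
  intro s hs
  have hz : (winv [z]).head? = some (linv z) := by simp [winv]
  let r := S.lam (S.St [z]) [z] le_rfl e
  have hU : ∀ w, r w ∈ UU (linv z) e := fun w => S.lam_U hz e w.2
  have hT : ∀ s ∈ TT (linv z) e, ∃ w, r w = s := by
    intro s hs
    obtain ⟨w, hw, hws⟩ := S.lam_T (F1 h2) (red_singleton z) (by simp) hz e s hs
    exact ⟨⟨w, hw⟩, hws⟩
  have hK : ((S.N).subgroupOf (S.St [z])).Normal := by
    constructor
    intro w hw g
    rw [Subgroup.mem_subgroupOf] at hw ⊢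
    exact S.N_normal.conj_mem _ hw _
  obtain ⟨h, hN, hne⟩ := exists_ls_ne h6 h2 h3 z e
  obtain ⟨w, hw, hws⟩ := surj_of_ne h6 (linv z) e r hU hT _ hK
    ⟨⟨h, N_le_St z hN⟩, (Subgroup.mem_subgroupOf).2 hN, hne⟩ s hs
  exact ⟨w.1, (Subgroup.mem_subgroupOf).1 hw, hws⟩

/-- Single child lemma. -/
lemma single (h6 : 6 ≤ Fintype.card Q) (h2 : S.H2) (h3 : S.H3) (z2 : Lt Q) (e : Bool) :
    ∃ h ∈ S.N, S.ρ e (S.ls h z2) ≠ 1 ∧
      ∀ z : Lt Q, z.1 = z2.1 → z ≠ z2 → S.ρ e (S.ls h z) = 1 := by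
  let r : S.N →* Perm Q := S.lam S.N [z2] (N_le_St z2) e
  have hz : (winv [z2]).head? = some (linv z2) := by simp [winv]
  have hU : ∀ w, r w ∈ UU (linv z2) e := fun w => S.lam_U hz e (N_le_St z2 w.2)
  have hT : ∀ s ∈ TT (linv z2) e, ∃ w, r w = s := by
    intro s hs
    obtain ⟨w, hw, hws⟩ := N_surj h6 h2 h3 z2 e s hs
    exact ⟨⟨w, hw⟩, hws⟩
  let ι := {z : Lt Q // z.1 = z2.1 ∧ z ≠ z2}
  let K : ι → Subgroup S.N := fun z => (S.lam S.N [z.1] (N_le_St z.1) e).ker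
  have hne : ∀ i, ∃ w ∈ K i, r w ≠ 1 := by
    rintro ⟨z, hz1, hz2⟩
    obtain ⟨h, hN, q1, q2, hq1, hq2⟩ := h3 z2.1 e
    have hq12 : q1 ≠ q2 := by
      rintro rfl
      exact hq2 hq1
    have hzz : z.2 ≠ z2.2 := by
      intro h
      exact hz2 (Prod.ext hz1 h)
    obtain ⟨s, hs, hs1, hs2⟩ := alt_two_trans (by omega) q1 q2 z.2 z2.2 hq12 hzz
    obtain ⟨f, -, hf⟩ := h2 z2.1 s hs
    have e1 : S.la f (z2.1, q1) = z := by
      ext
      · simp [hz1]
      · simp [hf, hs1]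
    have e2 : S.la f (z2.1, q2) = z2 := by
      ext
      · simp
      · simp [hf, hs2]
    refine ⟨⟨f * h * f⁻¹, S.N_normal.conj_mem h hN f⟩, ?_, ?_⟩
    · show S.ρ e (S.ws (f * h * f⁻¹) [z]) = 1
      have h5 := ls_conj f h hN ((z2.1, q1) : Lt Q)
      rw [e1] at h5
      simp only [ws_cons, ws_nil]
      rw [h5, map_mul, map_mul, map_inv]
      have : S.ρ e (S.ls h (z2.1, q1)) = 1 := hq1
      rw [this]
      group
    · show S.ρ e (S.ws (f * h * f⁻¹) [z2]) ≠ 1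
      have h5 := ls_conj f h hN ((z2.1, q2) : Lt Q)
      rw [e2] at h5
      simp only [ws_cons, ws_nil]
      rw [h5, map_mul, map_mul, map_inv]
      intro hc
      apply hq2
      have := congrArg (fun t => (S.ρ e (S.ls f (z2.1, q2)))⁻¹ * t * S.ρ e (S.ls f (z2.1, q2))) hc
      simpa [mul_assoc, ls] using this
  obtain ⟨a, ha, b, hb, hab⟩ := TT_noncomm h6 (linv z2) e
  have ha1 : a ≠ 1 := by
    rintro rfl
    apply hab
    simp
  obtain ⟨w, hw, hws⟩ := lemG h6 (linv z2) e r hU hT K (fun i => inferInstance) hne a ha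
  refine ⟨w.1, w.2, ?_, ?_⟩
  · have : S.ρ e (S.ws w.1 [z2]) = a := hws
    simp only [ws_cons, ws_nil] at this
    rw [this]
    exact ha1
  · intro z hz1 hz2
    have := hw ⟨z, hz1, hz2⟩
    have h4 : S.ρ e (S.ws w.1 [z]) = 1 := this
    simpa using h4

end Sys

end GF40
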