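import Mathlib
import Pool.Agent.Lib_helper40.GF.Crit2

set_option autoImplicit false
set_option linter.unusedSectionVars false

open Equiv Equiv.Perm

namespace GF40

namespace Sys

variable {F Q : Type*} [Group F] [Fintype Q] [DecidableEq Q] {S : Sys F Q}

lemma getLast_exists {t : List (Lt Q)} (ht : t ≠ []) : ∃ a, t.getLast? = some a := by
  rw [← Option.isSome_iff_exists]
  simp [ht]

lemma winv_head_of_last {t : List (Lt Q)} {a : Lt Q} (ha : t.getLast? = some a) :
    (winv t).head? = some (linv a) := by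
  unfold winv
  rw [List.head?_reverse, List.getLast?_map, ha]
  rfl

lemma last_ne_of_red {t : List (Lt Q)} {a x : Lt Q} (ha : t.getLast? = some a)
    (h : Red (t ++ [x])) : x ≠ linv a := by
  unfold Red at h
  rw [List.isChain_append] at h
  exact h.2.2 a (by simp [ha]) x (by simp)

/-- Moving the next letter. -/
lemma move_last (h6 : 6 ≤ Fintype.card Q) {k : ℕ} (hF : S.Fk k) {t : List (Lt Q)}
    (ht : Red t) (htl : t.length ≤ k) {a : Lt Q} (ha : t.getLast? = some a)
    (x x' : Lt Q) (hxx : x.1 = x'.1) (hx : x ≠ linv a) (hx' : x' ≠ linv a) :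
    ∃ w ∈ S.St t, S.la (S.ws w t) x = x' := by
  have hz := winv_head_of_last ha
  obtain ⟨s, hs, hsx⟩ := TT_trans h6 (linv a) x.1 x.2 x'.2 (by
    intro h1 h2
    exact hx (Prod.ext h1 h2)) (by
    intro h1 h2
    exact hx' (Prod.ext (hxx ▸ h1) h2))
  obtain ⟨w, hw, hws⟩ := S.lam_T hF ht htl hz x.1 s hs
  refine ⟨w, hw, ?_⟩
  ext
  · simp [hxx]
  · simp [hws, hsx]

/-- Transitivity on reduced words with the same first letter and sign pattern. -/
lemma trans_head (h6 : 6 ≤ Fintype.card Q) {k : ℕ} (hF : ∀ j, 1 ≤ j → j ≤ k → S.Fk j)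
    (y : Lt Q) : ∀ (n : ℕ), n ≤ k + 1 → ∀ u u' : List (Lt Q), u.length = n → Red u → Red u' →
      u.head? = some y → u'.head? = some y → u.map Prod.fst = u'.map Prod.fst →
      ∃ g ∈ S.St [y], S.wa g u = u' := by
  intro n
  induction n with
  | zero =>
    intro _ u u' hl _ _ hh _ _
    have : u = [] := List.length_eq_zero_iff.1 hl
    subst this
    simp at hh
  | succ n ih =>
    intro hn u u' hl hu hu' hh hh' hm
    have hlen : u'.length = n + 1 := by
      have := congrArg List.length hm
      simpa [hl] using this.symm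
    by_cases hn0 : n = 0
    · subst hn0
      have e1 : u = [y] := by
        cases u with
        | nil => simp at hh
        | cons x l =>
          simp only [List.head?_cons, Option.some.injEq] at hh
          simp only [List.length_cons] at hl
          have : l = [] := List.length_eq_zero_iff.1 (by omega)
          rw [hh, this]
      have e2 : u' = [y] := by
        cases u' with
        | nil => simp at hh'
        | cons x l =>
          simp only [List.head?_cons, Option.some.injEq] at hh'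
          simp only [List.length_cons] at hlen
          have : l = [] := List.length_eq_zero_iff.1 (by omega)
          rw [hh', this]
      exact ⟨1, (S.St [y]).one_mem, by rw [e1, e2, S.wa_one]⟩
    · have hne : u ≠ [] := by rintro rfl; simp at hl
      have hne' : u' ≠ [] := by rintro rfl; simp at hlen
      obtain ⟨t, x, rfl⟩ : ∃ t x, u = t ++ [x] :=
        ⟨u.dropLast, u.getLast hne, (List.dropLast_append_getLast hne).symm⟩
      obtain ⟨t', x', rfl⟩ : ∃ t x, u' = t ++ [x] :=
        ⟨u'.dropLast, u'.getLast hne', (List.dropLast_append_getLast hne').symm⟩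
      have htl : t.length = n := by simpa using hl
      have htl' : t'.length = n := by simpa using hlen
      have htne : t ≠ [] := by rintro rfl; simp at htl; omega
      have htne' : t' ≠ [] := by rintro rfl; simp at htl'; omega
      have hth : t.head? = some y := by
        cases t with
        | nil => exact absurd rfl htne
        | cons a l => simpa using hh
      have hth' : t'.head? = some y := by
        cases t' with
        | nil => exact absurd rfl htne'
        | cons a l => simpa using hh'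
      rw [List.map_append, List.map_append] at hm
      have hm' := List.append_inj hm (by simp [htl, htl'])
      have hm1 := hm'.1
      have hm2 : x.1 = x'.1 := by simpa using hm'.2
      obtain ⟨g, hg, hgt⟩ := ih (by omega) t t' htl (red_append_left hu) (red_append_left hu')
        hth hth' hm1
      obtain ⟨a, ha⟩ := getLast_exists htne'
      have e1 : S.wa g (t ++ [x]) = t' ++ [S.la (S.ws g t) x] := by
        rw [S.wa_append, hgt]
        simp
      have hred : Red (t' ++ [S.la (S.ws g t) x]) := by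
        rw [← e1]
        exact S.red_wa g hu
      obtain ⟨w, hw, hwx⟩ := move_last h6 (hF n (by omega) (by omega))
        (red_append_left hu') htl'.le ha (S.la (S.ws g t) x) x' (by simp [hm2])
        (last_ne_of_red ha hred) (last_ne_of_red ha hu')
      refine ⟨w * g, (S.St [y]).mul_mem (S.St_head_le y t' hth' hw) hg, ?_⟩
      rw [S.wa_mul, e1, S.wa_append, (S.mem_St _ _).1 hw]
      simp [hwx]

/-- section of a conjugate -/
lemma ws_conj (g w : F) (u : List (Lt Q)) (hw : w ∈ S.St u) :
    S.ws (g * w * g⁻¹) (S.wa g u) = S.ws g u * S.ws w u * (S.ws g u)⁻¹ := by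
  have h1 : S.wa g⁻¹ (S.wa g u) = u := by rw [← S.wa_mul, inv_mul_cancel, S.wa_one]
  have h2 : S.ws g⁻¹ (S.wa g u) = (S.ws g u)⁻¹ := by
    have := S.ws_mul g⁻¹ g u
    rw [inv_mul_cancel, S.ws_one] at this
    exact eq_inv_of_mul_eq_one_left this.symm
  rw [S.ws_mul, h1, S.ws_mul, (S.mem_St _ _).1 hw, h2]

lemma even_comm {y : Lt Q} {e : Bool} {a b : Perm Q} (ha : a ∈ UU y e) (hb : b ∈ UU y e) :
    a * b * a⁻¹ * b⁻¹ ∈ TT y e := by
  refine ⟨(UU y e).mul_mem ((UU y e).mul_mem ((UU y e).mul_mem ha hb) ((UU y e).inv_mem ha))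
    ((UU y e).inv_mem hb), ?_⟩
  show _ ∈ alternatingGroup Q
  rw [Perm.mem_alternatingGroup]
  simp only [map_mul, map_inv]
  rcases Int.units_eq_one_or (sign a) with h | h <;>
    rcases Int.units_eq_one_or (sign b) with h' | h' <;> simp [h, h']

/-- The main step of the induction. -/
lemma Fk_succ (h6 : 6 ≤ Fintype.card Q) (h2 : S.H2) (h3 : S.H3) {k : ℕ} (hk : 2 ≤ k)
    (hF : ∀ j, 1 ≤ j → j ≤ k → S.Fk j) : S.Fk (k + 1) := by
  intro y e
  set M := S.Mk k y with hM
  let r : M →* Perm Q := (S.ρ e).comp M.subtype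
  have hU : ∀ w, r w ∈ UU y e := fun w => S.rho_mem_UU y e w.1 (S.la_of_Mk (by omega) w.2)
  have hT : ∀ s ∈ TT y e, ∃ w, r w = s := by
    intro s hs
    obtain ⟨w, hw, hws⟩ := hF k (by omega) le_rfl y e s hs
    exact ⟨⟨w, hw⟩, hws⟩
  let W := {u : List (Lt Q) // u.length = k}
  have hWfin : Finite W := by
    have := List.finite_length_eq (Lt Q) k
    exact this.to_subtype
  let ι := {i : W × Bool // Red i.1.1 ∧ i.1.1.head? = some y}
  have hle : ∀ i : ι, M ≤ S.St i.1.1.1 := fun i =>
    S.Mk_le_St i.2.1 i.2.2 (le_of_eq i.1.1.2)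
  let K : ι → Subgroup M := fun i => (S.lam M i.1.1.1 (hle i) i.1.2).ker
  have hne : ∀ i, ∃ w ∈ K i, r w ≠ 1 := by
    rintro ⟨⟨⟨u, hul⟩, e'⟩, hu, huh⟩
    simp only at hu huh
    by_contra hcon
    have hMu : M ≤ S.St u := S.Mk_le_St hu huh hul.le
    -- (star)
    have star : ∀ w ∈ M, S.ρ e' (S.ws w u) = 1 → S.ρ e w = 1 := by
      intro w hw h1
      by_contra h2
      exact hcon ⟨⟨w, hw⟩, h1, h2⟩
    obtain ⟨t, x, rfl⟩ : ∃ t x, u = t ++ [x] := by
      have hne : u ≠ [] := by rintro rfl; simp at hul; omega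
      exact ⟨u.dropLast, u.getLast hne, (List.dropLast_append_getLast hne).symm⟩
    have htl : t.length = k - 1 := by
      have : t.length + 1 = k := by simpa using hul
      omega
    have htne : t ≠ [] := by rintro rfl; simp at htl; omega
    have hth : t.head? = some y := by
      cases t with
      | nil => exact absurd rfl htne
      | cons a l => simpa using huh
    obtain ⟨a, ha⟩ := getLast_exists htne
    have htr : Red t := red_append_left hu
    set z := linv x with hz
    have hzh : (winv (t ++ [x])).head? = some z := head_winv_of_append t x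
    have hStu : S.St (t ++ [x]) ≤ S.St [y] := S.St_head_le y _ huh
    -- surjectivity of the local action of `M`
    have surj : ∀ s ∈ TT z e', ∃ w ∈ M, S.ρ e' (S.ws w (t ++ [x])) = s := by
      intro s hs
      let r' := S.lam (S.St (t ++ [x])) (t ++ [x]) le_rfl e'
      have hU' : ∀ w, r' w ∈ UU z e' := fun w => S.lam_U hzh e' w.2
      have hT' : ∀ s ∈ TT z e', ∃ w, r' w = s := by
        intro s hs
        obtain ⟨w, hw, hws⟩ := S.lam_T (hF k (by omega) le_rfl) hu hul.le hzh e' s hs
        exact ⟨⟨w, hw⟩, hws⟩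
      have hKn : (M.subgroupOf (S.St (t ++ [x]))).Normal := by
        constructor
        intro w hw g
        rw [Subgroup.mem_subgroupOf] at hw ⊢
        exact S.Mk_conj ((S.mem_St_singleton y _).1 (hStu g.2)) hw
      obtain ⟨b, hb, c, hc, hbc⟩ := TT_noncomm h6 y e
      have hb1 : b ≠ 1 := by
        rintro rfl
        apply hbc
        simp
      obtain ⟨wb, hwb⟩ := hT b hb
      have hwb' : S.ρ e wb.1 = b := hwb
      obtain ⟨w, hw, hws⟩ := surj_of_ne h6 z e' r' hU' hT' _ hKn
        ⟨⟨wb.1, hMu wb.2⟩, (Subgroup.mem_subgroupOf).2 wb.2, fun h => hb1 (by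
          rw [← hwb']
          exact star _ wb.2 h)⟩ s hs
      exact ⟨w.1, (Subgroup.mem_subgroupOf).1 hw, hws⟩
    -- converse of (star)
    have starc : ∀ w ∈ M, S.ρ e w = 1 → S.ρ e' (S.ws w (t ++ [x])) = 1 := by
      intro w0 hw0 h1
      by_contra hne0
      let r' := S.lam M (t ++ [x]) hMu e'
      have hU' : ∀ w, r' w ∈ UU z e' := fun w => S.lam_U hzh e' (hMu w.2)
      have hT' : ∀ s ∈ TT z e', ∃ w, r' w = s := by
        intro s hs
        obtain ⟨w, hw, hws⟩ := surj s hs
        exact ⟨⟨w, hw⟩, hws⟩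
      have hsurj2 := surj_of_ne h6 z e' r' hU' hT' r.ker inferInstance
        ⟨⟨w0, hw0⟩, h1, hne0⟩
      obtain ⟨b, hb, c, hc, hbc⟩ := TT_noncomm h6 y e
      obtain ⟨wb, hwb⟩ := hT b hb
      obtain ⟨wc, hwc⟩ := hT c hc
      have h4 : r' (wb * wc * wb⁻¹ * wc⁻¹) ∈ TT z e' := by
        rw [map_mul, map_mul, map_mul, map_inv, map_inv]
        exact even_comm (hU' wb) (hU' wc)
      obtain ⟨w1, hw1, hw1s⟩ := hsurj2 _ h4
      have h5 : r' (wb * wc * wb⁻¹ * wc⁻¹ * w1⁻¹) = 1 := by
        rw [map_mul, map_inv, hw1s, mul_inv_cancel]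
      have h6' : r (wb * wc * wb⁻¹ * wc⁻¹ * w1⁻¹) = 1 :=
        star _ (wb * wc * wb⁻¹ * wc⁻¹ * w1⁻¹ : M).2 h5
      have h7 : r w1 = 1 := hw1
      rw [map_mul, map_inv, h7, inv_one, mul_one, map_mul, map_mul, map_mul, map_inv, map_inv,
        hwb, hwc] at h6'
      apply hbc
      have := congrArg (fun f => f * c * b) h6'
      simpa [mul_assoc] using this
    -- transport
    have trans : ∀ g ∈ S.St [y], ∀ w ∈ M,
        S.ρ e' (S.ws w (S.wa g (t ++ [x]))) = 1 → S.ρ e' (S.ws w (t ++ [x])) = 1 := by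
      intro g hg w hw h1
      have hgy := (S.mem_St_singleton y g).1 hg
      have hgi : S.la g⁻¹ y = y := (S.mem_St_singleton y _).1 ((S.St [y]).inv_mem hg)
      have hw' : g⁻¹ * w * g⁻¹⁻¹ ∈ M := S.Mk_conj hgi hw
      set w' := g⁻¹ * w * g⁻¹⁻¹ with hw'def
      have hww : w = g * w' * g⁻¹ := by rw [hw'def]; group
      have h4 := ws_conj g w' (t ++ [x]) (hMu hw')
      rw [← hww] at h4
      rw [h4, map_mul, map_mul, map_inv] at h1
      have h5 : S.ρ e' (S.ws w' (t ++ [x])) = 1 := by
        have := congrArg (fun f => (S.ρ e' (S.ws g (t ++ [x])))⁻¹ * f *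
          (S.ρ e' (S.ws g (t ++ [x])))) h1
        simpa [mul_assoc] using this
      have h7 := star w' hw' h5
      apply starc w hw
      rw [hww, map_mul, map_mul, map_inv, h7]
      group
    -- the special element
    have hxa : x ≠ linv a := last_ne_of_red ha hu
    obtain ⟨p, hp1, hp2⟩ : ∃ p : Q, p ≠ x.2 ∧ p ≠ a.2 := by
      obtain ⟨p, _, -, hpa, hpb, -, -, -, -⟩ := exists_two (by omega) x.2 a.2 a.2
      exact ⟨p, hpa, hpb⟩
    have hwt : (winv t).head? = some (linv a) := winv_head_of_last ha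
    obtain ⟨s, hs, hsx⟩ := TT_trans h6 (linv a) x.1 x.2 p (by
      intro h1 h2
      exact hxa (Prod.ext h1 h2)) (by
      intro _
      simpa using hp2)
    obtain ⟨g, hgM, hgs⟩ := hF (k - 1) (by omega) (by omega) (linv a) x.1 s hs
    have hgx : S.la g x = (x.1, p) := by
      ext
      · simp
      · simp [hgs, hsx]
    obtain ⟨h0, h0N, h0ne, h0one⟩ := single h6 h2 h3 x e'
    obtain ⟨q1, hq1a, hq1b, hq1c⟩ : ∃ q : Q, q ≠ x.2 ∧ q ≠ p ∧ q ≠ a.2 := by
      obtain ⟨q, _, -, hpa, hpb, hpc, -, -, -⟩ := exists_two (by omega) x.2 p a.2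
      exact ⟨q, hpa, hpb, hpc⟩
    set z1 : Lt Q := (x.1, q1) with hz1
    set h' := h0 * (g * h0⁻¹ * g⁻¹) with hh'
    have h0i : h0⁻¹ ∈ S.N := (S.N).inv_mem h0N
    have hcN : g * h0⁻¹ * g⁻¹ ∈ S.N := S.N_normal.conj_mem _ h0i g
    have hh'N : h' ∈ S.N := (S.N).mul_mem h0N hcN
    have hh'M : h' ∈ S.Mk (k - 1) (linv a) := by
      have e1 : h' = (h0 * g * h0⁻¹) * g⁻¹ := by rw [hh']; group
      rw [e1]
      exact (S.Mk (k - 1) (linv a)).mul_mem (S.Mk_conj (S.la_of_N h0N _) hgM)
        ((S.Mk (k - 1) (linv a)).inv_mem hgM)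
    -- sections of the conjugate
    have hsec : ∀ v : Lt Q, v.1 = x.1 → S.la g⁻¹ v ≠ x →
        S.ρ e' (S.ls (g * h0⁻¹ * g⁻¹) v) = 1 := by
      intro v hv1 hv
      have h4 := ls_conj g h0⁻¹ h0i (S.la g⁻¹ v)
      rw [← S.la_mul, mul_inv_cancel, S.la_one] at h4
      rw [h4, map_mul, map_mul, map_inv]
      have h5 : S.ls h0⁻¹ (S.la g⁻¹ v) = (S.ls h0 (S.la g⁻¹ v))⁻¹ := by
        have := S.ls_mul h0⁻¹ h0 (S.la g⁻¹ v)
        rw [inv_mul_cancel, S.ls_one, S.la_of_N h0N] at this
        exact eq_inv_of_mul_eq_one_left this.symm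
      rw [h5, map_inv, h0one (S.la g⁻¹ v) (by simp [hv1]) hv]
      group
    have hl1 : S.ρ e' (S.ls h' z1) = 1 := by
      rw [hh', S.ls_mul, S.la_of_N hcN, map_mul, hsec z1 (by simp [hz1]), mul_one]
      · apply h0one z1 (by simp [hz1])
        intro h
        exact hq1a (by rw [← h])
      · intro h
        have h4 := congrArg (S.la g) h
        rw [← S.la_mul, mul_inv_cancel, S.la_one, hgx] at h4
        exact hq1b (congrArg Prod.snd h4)
    have hl2 : S.ρ e' (S.ls h' x) ≠ 1 := by
      rw [hh', S.ls_mul, S.la_of_N hcN, map_mul, hsec x rfl, mul_one]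
      · exact h0ne
      · intro h
        have h4 := congrArg (S.la g) h
        rw [← S.la_mul, mul_inv_cancel, S.la_one, hgx] at h4
        exact hp1 (congrArg Prod.snd h4).symm
    have hh'St : h' ∈ S.St (winv t) := by
      rw [S.mem_St]
      exact S.mem_Mk.1 hh'M _ (red_winv htr) hwt (by simp [htl])
    obtain ⟨w, hw, hwh⟩ := S.exists_ws hh'St
    have hwy : w ∈ S.St [y] := S.St_head_le y t hth hw
    have hfix : ∀ v : Lt Q, w ∈ S.St (t ++ [v]) := by
      intro v
      rw [S.mem_St, S.wa_append, (S.mem_St _ _).1 hw, hwh]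
      simp [S.la_of_N hh'N v]
    have hsecw : ∀ v : Lt Q, S.ws w (t ++ [v]) = S.ls h' v := by
      intro v
      rw [S.ws_append, hwh]
      simp
    have hz1a : z1 ≠ linv a := by
      intro h
      have := congrArg Prod.snd h
      exact hq1c (by simpa [hz1] using this)
    have hred1 : Red (t ++ [z1]) := red_append_singleton ha htr hz1a
    obtain ⟨g1, hg1, hg1u⟩ := trans_head h6 (k := k) hF y k (by omega) (t ++ [x]) (t ++ [z1])
      hul hu hred1 huh (by
        cases t with
        | nil => exact absurd rfl htne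
        | cons b l => simpa using hth) (by simp [hz1])
    -- commutation
    have hcomm : ∀ s ∈ TT z e', S.ρ e' (S.ls h' x) * s = s * S.ρ e' (S.ls h' x) := by
      intro s hs
      obtain ⟨μ, hμ, hμs⟩ := surj s hs
      have hν : w * μ * w⁻¹ * μ⁻¹ ∈ M :=
        M.mul_mem (S.Mk_conj ((S.mem_St_singleton y _).1 hwy) hμ) (M.inv_mem hμ)
      have hMz : M ≤ S.St (t ++ [z1]) := by
        apply S.Mk_le_St hred1 _ (by simp [htl]; omega)
        cases t with
        | nil => exact absurd rfl htne
        | cons b l => simpa using hth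
      have hgen : ∀ v : Lt Q, M ≤ S.St (t ++ [v]) →
          S.ws (w * μ * w⁻¹ * μ⁻¹) (t ++ [v]) =
          S.ls h' v * S.ws μ (t ++ [v]) * (S.ls h' v)⁻¹ * (S.ws μ (t ++ [v]))⁻¹ := by
        intro v hMv
        have a1 := hfix v
        have a2 := hMv hμ
        rw [S.ws_mul_St _ ((S.St _).inv_mem a2), S.ws_mul_St _ ((S.St _).inv_mem a1),
          S.ws_mul_St _ a2, S.ws_inv_St a1, S.ws_inv_St a2, hsecw v]
      have h4 : S.ρ e' (S.ws (w * μ * w⁻¹ * μ⁻¹) (S.wa g1 (t ++ [x]))) = 1 := by
        rw [hg1u, hgen z1 hMz, map_mul, map_mul, map_mul, map_inv, map_inv, hl1]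
        group
      have h5 := trans g1 hg1 _ hν h4
      rw [hgen x hMu, map_mul, map_mul, map_mul, map_inv, map_inv, hμs] at h5
      have := congrArg (fun f => f * s * S.ρ e' (S.ls h' x)) h5
      simpa [mul_assoc] using this
    have hUx : S.ρ e' (S.ls h' x) ∈ UU z e' := by
      have := S.lam_U hzh e' (hfix x)
      rwa [hsecw x] at this
    exact hl2 (central (by omega) z e' _ hUx hcomm)
  intro s hs
  have hιfin : Finite ι := inferInstance
  obtain ⟨w, hw, hws⟩ := lemG h6 y e r hU hT K (fun i => inferInstance) hne s hs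
  refine ⟨w.1, ?_, hws⟩
  rw [S.mem_Mk_succ (by omega)]
  refine ⟨w.2, ?_⟩
  intro u hu hh hl
  rw [S.mem_N]
  intro b
  exact hw ⟨(⟨u, hl⟩, b), hu, hh⟩

/-- All levels. -/
theorem Fk_all (h6 : 6 ≤ Fintype.card Q) (h2 : S.H2) (h3 : S.H3) :
    ∀ k, 1 ≤ k → S.Fk k := by
  intro k
  induction k using Nat.strong_induction_on with
  | _ k ih =>
    intro hk
    rcases Nat.lt_or_ge k 2 with h | h
    · have : k = 1 := by omega
      subst this
      exact F1 h2
    · rcases Nat.lt_or_ge k 3 with h' | h'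
      · have : k = 2 := by omega
        subst this
        exact F2 h6 h2 h3
      · obtain ⟨j, rfl⟩ : ∃ j, k = j + 1 := ⟨k - 1, by omega⟩
        exact Fk_succ h6 h2 h3 (by omega) (fun i hi hij => ih i (by omega) hi)

/-- Transitivity on reduced words with a given sign pattern. -/
theorem trans_all (h6 : 6 ≤ Fintype.card Q) (h2 : S.H2) (h3 : S.H3)
    (u u' : List (Lt Q)) (hu : Red u) (hu' : Red u') (hm : u.map Prod.fst = u'.map Prod.fst) :
    ∃ g, S.wa g u = u' := by
  cases u with
  | nil =>
    have : u' = [] := by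
      cases u' with
      | nil => rfl
      | cons a l => simp at hm
    exact ⟨1, by rw [this, S.wa_one]⟩
  | cons x l =>
    cases u' with
    | nil => simp at hm
    | cons x' l' =>
      simp only [List.map_cons, List.cons.injEq] at hm
      obtain ⟨s, hs, hsx⟩ := TT_trans h6 ((!x.1, x.2) : Lt Q) x.1 x.2 x'.2 (by simp) (by simp)
      obtain ⟨f, -, hf⟩ := h2 x.1 s hs.2
      have hfx : S.la f x = x' := by
        ext
        · simp [hm.1]
        · simp [hf, hsx]
      have e1 : S.wa f (x :: l) = x' :: S.wa (S.ls f x) l := by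
        rw [S.wa_cons, hfx]
      have hred : Red (x' :: S.wa (S.ls f x) l) := by
        rw [← e1]
        exact S.red_wa f hu
      have hmap : ∀ (w : F) (v : List (Lt Q)), (S.wa w v).map Prod.fst = v.map Prod.fst := by
        intro w v
        induction v generalizing w with
        | nil => simp
        | cons a v ih => simp [ih]
      obtain ⟨g, -, hg⟩ := trans_head h6 (k := (x' :: S.wa (S.ls f x) l).length)
        (fun j hj _ => Fk_all h6 h2 h3 j hj) x' _ (by omega)
        (x' :: S.wa (S.ls f x) l) (x' :: l') rfl hred hu' rfl rfl (by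
          simp only [List.map_cons, List.cons.injEq, true_and]
          rw [hmap, hm.2])
      exact ⟨g * f, by rw [S.wa_mul, e1, hg]⟩

end Sys

end GF40
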