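import Mathlib
import Pool.Agent.Lib_helper40.GF.Crit3

set_option autoImplicit false
set_option linter.unusedSectionVars false

open Equiv Equiv.Perm

namespace GF40

section build

variable {Q X : Type*}

/-- one letter acting on `Q × FreeGroup X` -/
def stepPerm (E : X → Perm Q) (l : Q → X → X) (x : X) : Perm (Q × FreeGroup X) where
  toFun a := (E x a.1, FreeGroup.of (l a.1 x) * a.2)
  invFun a := ((E x)⁻¹ a.1, (FreeGroup.of (l ((E x)⁻¹ a.1) x))⁻¹ * a.2)
  left_inv := by
    rintro ⟨q, v⟩
    simp
  right_inv := by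
    rintro ⟨q, v⟩
    simp

/-- the wreath recursion -/
def rec (E : X → Perm Q) (l : Q → X → X) : FreeGroup X →* Perm (Q × FreeGroup X) :=
  FreeGroup.lift (stepPerm E l)

/-- the section -/
def secl (E : X → Perm Q) (l : Q → X → X) (w : FreeGroup X) (q : Q) : FreeGroup X :=
  (rec E l w (q, 1)).2

lemma rec_apply (E : X → Perm Q) (l : Q → X → X) (w : FreeGroup X) :
    ∀ q v, rec E l w (q, v) = (FreeGroup.lift E w q, secl E l w q * v) := by
  induction w using FreeGroup.induction_on with
  | C1 => intro q v; simp [secl]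
  | of x => intro q v; simp [secl, rec, stepPerm]
  | inv_of x _ =>
    intro q v
    simp only [secl, rec, map_inv, FreeGroup.lift_apply_of]
    have e1 : ∀ v, (stepPerm E l x)⁻¹ (q, v) =
      ((E x)⁻¹ q, (FreeGroup.of (l ((E x)⁻¹ q) x))⁻¹ * v) := fun v => rfl
    rw [e1, e1]
    simp
  | mul a b ha hb =>
    intro q v
    have e1 : secl E l (a * b) q = secl E l a (FreeGroup.lift E b q) * secl E l b q := by
      unfold secl
      rw [map_mul, Perm.mul_apply, hb q 1, ha]
      simp [secl]
    rw [map_mul, Perm.mul_apply, hb, ha, e1]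
    simp [mul_assoc]

lemma secl_mul (E : X → Perm Q) (l : Q → X → X) (a b : FreeGroup X) (q : Q) :
    secl E l (a * b) q = secl E l a (FreeGroup.lift E b q) * secl E l b q := by
  have h1 : secl E l (a * b) q = (rec E l (a * b) (q, 1)).2 := rfl
  rw [h1, map_mul, Perm.mul_apply, rec_apply, rec_apply]
  simp

lemma secl_of (E : X → Perm Q) (l : Q → X → X) (x : X) (q : Q) :
    secl E l (FreeGroup.of x) q = FreeGroup.of (l q x) := by
  simp [secl, rec, stepPerm]

lemma secl_one (E : X → Perm Q) (l : Q → X → X) (q : Q) : secl E l 1 q = 1 := by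
  simp [secl, rec]

end build

section auto

variable {Q X : Type*} (D : X → Perm Q) (O : Q → Perm X)
  (hB : ∀ y : X, Function.Bijective (fun q => D ((O q)⁻¹ y) q))

/-- the action of the letters from the other side -/
noncomputable def Dm (x : X) : Perm Q := Equiv.ofBijective _ (hB x)

/-- transitions by sign -/
noncomputable def Eb : Bool → X → Perm Q
  | true => D
  | false => Dm D O hB

/-- outputs by sign -/
def lb : Bool → Q → X → X
  | true => fun q x => O q x
  | false => fun q x => (O q)⁻¹ x

lemma lb_lb (b : Bool) (q : Q) (x : X) : lb O (!b) q (lb O b q x) = x := by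
  cases b <;> simp [lb]

lemma Eb_lb (b : Bool) (q : Q) (x : X) :
    Eb D O hB (!b) (lb O b q x) q = Eb D O hB b x q := by
  cases b
  · simp [Eb, lb, Dm]
  · simp [Eb, lb, Dm]

lemma dual_aux (b : Bool) (w : FreeGroup X) : ∀ q,
    FreeGroup.lift (Eb D O hB (!b)) (secl (Eb D O hB b) (lb O b) w q) q =
      FreeGroup.lift (Eb D O hB b) w q ∧
    secl (Eb D O hB (!b)) (lb O (!b)) (secl (Eb D O hB b) (lb O b) w q) q = w := by
  induction w using FreeGroup.induction_on with
  | C1 => intro q; simp [secl_one]
  | of x =>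
    intro q
    simp only [secl_of, FreeGroup.lift_apply_of]
    exact ⟨Eb_lb D O hB b q x, by rw [lb_lb]⟩
  | inv_of x hx =>
    intro q
    set E := Eb D O hB with hE
    set w : FreeGroup X := FreeGroup.of x with hw
    set p := FreeGroup.lift (E b) w⁻¹ q with hp
    have hpq : FreeGroup.lift (E b) w p = q := by
      rw [hp, ← Perm.mul_apply, ← map_mul, mul_inv_cancel, map_one, Perm.one_apply]
    have hs : secl (E b) (lb O b) w⁻¹ q = (secl (E b) (lb O b) w p)⁻¹ := by
      have h1 := secl_mul (E b) (lb O b) w w⁻¹ q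
      rw [mul_inv_cancel, secl_one] at h1
      exact eq_inv_of_mul_eq_one_right h1.symm
    obtain ⟨h1, h2⟩ := hx p
    rw [hpq] at h1
    have h3 : FreeGroup.lift (E (!b)) (secl (E b) (lb O b) w p)⁻¹ q = p := by
      rw [map_inv, Perm.inv_eq_iff_eq]
      exact h1.symm
    refine ⟨by rw [hs, h3], ?_⟩
    rw [hs]
    have h4 := secl_mul (E (!b)) (lb O (!b)) (secl (E b) (lb O b) w p)
      (secl (E b) (lb O b) w p)⁻¹ q
    rw [mul_inv_cancel, secl_one, h3, h2] at h4
    exact (inv_eq_of_mul_eq_one_right h4.symm).symm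
  | mul a c ha hc =>
    intro q
    obtain ⟨h1, h2⟩ := hc q
    obtain ⟨h3, h4⟩ := ha (FreeGroup.lift (Eb D O hB b) c q)
    constructor
    · rw [secl_mul, map_mul, Perm.mul_apply, h1, h3, map_mul, Perm.mul_apply]
    · rw [secl_mul, secl_mul, h1, h2, h4]

/-- The system of a bireversible transducer. -/
noncomputable def autoSys : Sys (FreeGroup X) Q where
  ρ b := FreeGroup.lift (Eb D O hB b)
  sc b w q := secl (Eb D O hB b) (lb O b) w q
  sc_mul b v w q := secl_mul _ _ v w q
  d_act b w q := (dual_aux D O hB b w q).1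
  d_sc b w q := (dual_aux D O hB b w q).2

variable (f : Q → Perm (List X)) (hf0 : ∀ q, f q [] = [])
  (hf : ∀ q x w, f q (x :: w) = O q x :: f (D x q) w)

/-- the permutation of a letter -/
def fl (y : Lt Q) : Perm (List X) := if y.1 then f y.2 else (f y.2)⁻¹

/-- the permutation of a word, first letter acts first -/
def ev : List (Lt Q) → Perm (List X)
  | [] => 1
  | y :: l => ev l * fl f y

include hf in
lemma fl_cons (y : Lt Q) (x : X) (v : List X) :
    fl f y (x :: v) = lb O y.1 y.2 x :: fl f ((autoSys D O hB).la (FreeGroup.of x) y) v := by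
  obtain ⟨b, q⟩ := y
  cases b
  · simp only [fl, lb, Bool.false_eq_true, if_false, Sys.la, autoSys, FreeGroup.lift_apply_of, Eb]
    rw [Perm.inv_eq_iff_eq, hf]
    simp [Dm]
  · simp only [fl, lb, if_true, Sys.la, autoSys, FreeGroup.lift_apply_of, Eb]
    rw [hf]

lemma ls_of (y : Lt Q) (x : X) :
    (autoSys D O hB).ls (FreeGroup.of x) y = FreeGroup.of (lb O y.1 y.2 x) := by
  simp only [Sys.ls, autoSys, secl_of]

include hf in
lemma ev_cons (l : List (Lt Q)) : ∀ (x : X) (v : List X), ∃ x' : X,
    ev f l (x :: v) = x' :: ev f ((autoSys D O hB).wa (FreeGroup.of x) l) v := by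
  induction l with
  | nil => intro x v; exact ⟨x, rfl⟩
  | cons y l ih =>
    intro x v
    simp only [ev, Sys.wa_cons, Perm.mul_apply]
    rw [fl_cons D O hB f hf, ls_of]
    exact ih _ _

include hf in
lemma ev_of (l : List (Lt Q)) (h : ev f l = 1) (x : X) :
    ev f ((autoSys D O hB).wa (FreeGroup.of x) l) = 1 := by
  ext1 v
  obtain ⟨x', hx'⟩ := ev_cons D O hB f hf l x v
  rw [h, Perm.one_apply] at hx'
  have h1 := (List.cons.inj hx').2
  rw [Perm.one_apply]
  exact h1.symm

include hf in
lemma ev_wa [Finite Q] (w : FreeGroup X) :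
    ∀ l, ev f l = 1 → ev f ((autoSys D O hB).wa w l) = 1 := by
  set S := autoSys D O hB with hS
  induction w using FreeGroup.induction_on with
  | C1 => intro l h; rw [S.wa_one]; exact h
  | of x => intro l h; exact ev_of D O hB f hf l h x
  | inv_of x hx =>
    intro l h
    set w : FreeGroup X := FreeGroup.of x with hw
    have hpow : ∀ (n : ℕ) (l : List (Lt Q)), ev f l = 1 → ev f (S.wa (w ^ n) l) = 1 := by
      intro n
      induction n with
      | zero => intro l h; rw [pow_zero, S.wa_one]; exact h
      | succ n ih =>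
        intro l h
        rw [pow_succ, S.wa_mul]
        exact ih _ (hx l h)
    have hfin : Finite {u : List (Lt Q) // u.length = l.length} :=
      (List.finite_length_eq (Lt Q) l.length).to_subtype
    obtain ⟨i, j, hij, he⟩ := Finite.exists_ne_map_eq_of_infinite
      (fun n : ℕ => (⟨S.wa (w ^ n) l, S.wa_length _ _⟩ : {u : List (Lt Q) // u.length = l.length}))
    have he' : S.wa (w ^ i) l = S.wa (w ^ j) l := congrArg Subtype.val he
    have main : ∀ i j : ℕ, i < j → S.wa (w ^ i) l = S.wa (w ^ j) l →
        ev f (S.wa w⁻¹ l) = 1 := by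
      intro i j hij he
      obtain ⟨m, rfl⟩ : ∃ m, j = i + (m + 1) := ⟨j - i - 1, by omega⟩
      have h1 : l = S.wa (w ^ (m + 1)) l := by
        apply S.wa_inj (w ^ i)
        rw [he, pow_add, S.wa_mul]
      have h2 : S.wa w⁻¹ l = S.wa (w ^ m) l := by
        conv_lhs => rw [h1]
        rw [← S.wa_mul]
        congr 1
        rw [pow_succ', inv_mul_cancel_left]
      rw [h2]
      exact hpow m l h
    rcases Nat.lt_or_gt_of_ne hij with h1 | h1
    · exact main i j h1 he'
    · exact main j i h1 he'.symm
  | mul a c ha hc =>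
    intro l h
    rw [S.wa_mul]
    exact ha _ (hc l h)

lemma ev_append (l l' : List (Lt Q)) : ev f (l ++ l') = ev f l' * ev f l := by
  induction l with
  | nil => simp [ev]
  | cons y l ih => simp [ev, ih, mul_assoc]

lemma lift_eq_ev (L : List (Q × Bool)) :
    FreeGroup.lift f (FreeGroup.mk L) = ev f ((L.map (fun a => ((a.2, a.1) : Lt Q))).reverse) := by
  rw [FreeGroup.lift_mk]
  induction L with
  | nil => simp [ev]
  | cons a L ih =>
    obtain ⟨q, b⟩ := a
    simp only [List.map_cons, List.prod_cons, List.reverse_cons]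
    rw [ev_append, ← ih]
    congr 1
    cases b <;> simp [ev, fl]

include hf in
/-- The criterion for freeness. -/
theorem free_of_H [Fintype Q] [DecidableEq Q] (h6 : 6 ≤ Fintype.card Q)
    (h2 : (autoSys D O hB).H2) (h3 : (autoSys D O hB).H3) :
    Function.Injective (FreeGroup.lift f) := by
  set S := autoSys D O hB with hS
  -- all states are equal is impossible
  have hbad : ¬ ∀ q q' : Q, f q = f q' := by
    intro hall
    have hO : ∀ q q' x, O q x = O q' x := by
      intro q q' x
      have h1 := hf q x []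
      have h2 := hf q' x []
      rw [hall q q'] at h1
      rw [h1] at h2
      exact (List.cons.inj h2).1
    have hlb : ∀ b q q' x, lb O b q x = lb O b q' x := by
      intro b q q' x
      cases b
      · simp only [lb]
        rw [Perm.inv_eq_iff_eq, hO q q']
        simp
      · exact hO q q' x
    have hsc : ∀ b (w : FreeGroup X) q q', S.sc b w q = S.sc b w q' := by
      intro b w
      induction w using FreeGroup.induction_on with
      | C1 =>
        intro q q'
        show secl _ _ _ _ = secl _ _ _ _
        rw [secl_one, secl_one]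
      | of x =>
        intro q q'
        show secl _ _ _ _ = secl _ _ _ _
        rw [secl_of, secl_of, hlb b q q']
      | inv_of x hx =>
        intro q q'
        have h1 : ∀ q, S.sc b (FreeGroup.of x)⁻¹ q =
            (S.sc b (FreeGroup.of x) (S.ρ b (FreeGroup.of x)⁻¹ q))⁻¹ := by
          intro q
          have h4 := S.ls_mul (FreeGroup.of x) (FreeGroup.of x)⁻¹ (b, q)
          rw [mul_inv_cancel, S.ls_one] at h4
          exact eq_inv_of_mul_eq_one_right h4.symm
        rw [h1 q, h1 q', hx _ (S.ρ b (FreeGroup.of x)⁻¹ q')]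
      | mul a c ha hc =>
        intro q q'
        rw [S.sc_mul, S.sc_mul, hc q q', ha _ (S.ρ b c q')]
    obtain ⟨h, -, q1, q2, e1, e2⟩ := h3 true true
    apply e2
    rw [hsc true h q2 q1]
    exact e1
  -- two different states are different
  have hdiff : ∀ q q' : Q, q ≠ q' → f q ≠ f q' := by
    intro q q' hne heq
    apply hbad
    intro a a'
    by_cases haa : a = a'
    · rw [haa]
    have hr : ∀ a a' : Q, a ≠ a' → Sys.Red ([(true, a), (false, a')] : List (Lt Q)) := by
      intro a a' h
      unfold Sys.Red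
      rw [List.isChain_cons_cons]
      refine ⟨?_, List.isChain_singleton _⟩
      intro hc
      exact h (congrArg Prod.snd hc).symm
    have h1 : ev f [(true, q), (false, q')] = 1 := by
      simp [ev, fl, heq]
    obtain ⟨g, hg⟩ := Sys.trans_all h6 h2 h3 [(true, q), (false, q')] [(true, a), (false, a')]
      (hr q q' hne) (hr a a' haa) rfl
    have h4 := ev_wa D O hB f hf g _ h1
    rw [← hS, hg] at h4
    have h5 : (f a')⁻¹ * f a = 1 := by simpa [ev, fl] using h4
    exact (inv_mul_eq_one.1 h5).symm
  have key : ∀ l : List (Lt Q), Sys.Red l → ev f l = 1 → l = [] := by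
    intro l hl h
    by_contra hne
    obtain ⟨t, x, rfl⟩ : ∃ t x, l = t ++ [x] :=
      ⟨l.dropLast, l.getLast hne, (List.dropLast_append_getLast hne).symm⟩
    obtain ⟨x', hx1, hx2, hx3⟩ : ∃ x' : Lt Q, x'.1 = x.1 ∧ x'.2 ≠ x.2 ∧ Sys.Red (t ++ [x']) := by
      rcases List.eq_nil_or_concat t with ht | ⟨t', a, ht⟩
      · obtain ⟨p, _, -, hp, -⟩ := exists_two (by omega) x.2 x.2 x.2
        refine ⟨(x.1, p), rfl, hp, ?_⟩
        rw [ht]
        exact Sys.red_singleton _
      · obtain ⟨p, _, -, hp, hp', -⟩ := exists_two (by omega) x.2 a.2 a.2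
        refine ⟨(x.1, p), rfl, hp, ?_⟩
        have ha : t.getLast? = some a := by rw [ht]; simp
        apply Sys.red_append_singleton ha (Sys.red_append_left hl)
        intro hc
        exact hp' (congrArg Prod.snd hc)
    obtain ⟨g, hg⟩ := Sys.trans_all h6 h2 h3 (t ++ [x]) (t ++ [x']) hl hx3 (by simp [hx1])
    have h4 := ev_wa D O hB f hf g _ h
    rw [← hS, hg] at h4
    rw [ev_append] at h h4
    have h5 : ev f [x] = ev f [x'] := mul_right_cancel (h.trans h4.symm)
    have h7 : fl f x = fl f x' := by simpa [ev] using h5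
    unfold fl at h7
    rw [hx1] at h7
    have h8 : f x.2 = f x'.2 := by
      by_cases hb : x.1 = true
      · simpa [hb] using h7
      · simpa [hb] using h7
    exact hdiff _ _ (Ne.symm hx2) h8
  rw [injective_iff_map_eq_one]
  intro u hu
  have h1 := lift_eq_ev f u.toWord
  rw [FreeGroup.mk_toWord, hu] at h1
  have hred : Sys.Red ((u.toWord.map (fun a => ((a.2, a.1) : Lt Q))).reverse) := by
    unfold Sys.Red
    rw [List.isChain_reverse, List.isChain_map]
    have h4 : FreeGroup.IsReduced u.toWord := FreeGroup.isReduced_toWord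
    unfold FreeGroup.IsReduced at h4
    refine h4.imp ?_
    rintro ⟨q, b⟩ ⟨q', b'⟩ hab hc
    have e1 := congrArg Prod.fst hc
    have e2 := congrArg Prod.snd hc
    simp only [linv] at e1 e2
    simp only at hab
    have := hab e2
    rw [this] at e1
    cases b' <;> simp at e1
  have h4 := key _ hred h1.symm
  have h5 : u.toWord = [] := by simpa using h4
  rwa [FreeGroup.toWord_eq_nil_iff] at h5

end auto

end GF40
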